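import Pool.Agent.Work.MP_174134_gt.Core

open scoped RealInnerProductSpace ContDiff
open Set Filter Topology

namespace Pool.Agent.Work.MP_174134_gt

variable {X : Plane → E4} {Q : E4 →L[ℝ] E4} {lo hi : ℝ}

/-- test function -/
noncomputable def F (X : Plane → E4) (x0 e : E4) (K β : ℝ) (p : Plane) : ℝ :=
  K * ⟪X p - x0, X p - x0⟫ + ⟪e, X p - x0⟫ - β * (p 0) ^ 2

lemma F_localMax (h : Iso X) (x0 e : E4) (K β : ℝ) (p : Plane) (hmax : IsLocalMax (F X x0 e K β) p)
    (w : Plane) :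
    2 * K * (‖w‖ ^ 2 + ⟪X p - x0, D2 X p w w⟫) + ⟪e, D2 X p w w⟫ - 2 * β * (w 0) ^ 2 ≤ 0 := by
  have hX : ∀ s : ℝ, HasDerivAt (fun s : ℝ => X (p + s • w) - x0) (D1 X (p + s • w) w) s :=
    fun s => (h.lineX p w s).sub_const x0
  have hc : ∀ s : ℝ, HasDerivAt (fun s : ℝ => (p + s • w) 0) (w 0) s := by
    intro s
    have : HasDerivAt (fun s : ℝ => p 0 + s * w 0) (w 0) s := by
      simpa using ((hasDerivAt_id s).mul_const (w 0)).const_add (p 0)
    exact this
  have h1 : ∀ s : ℝ, HasDerivAt (fun s : ℝ => F X x0 e K β (p + s • w))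
      (2 * K * ⟪X (p + s • w) - x0, D1 X (p + s • w) w⟫ + ⟪e, D1 X (p + s • w) w⟫
        - 2 * β * ((p + s • w) 0 * w 0)) s := by
    intro s
    have a1 := ((hX s).inner ℝ (hX s)).const_mul K
    have a2 := (hasDerivAt_const s e).inner ℝ (hX s)
    have a3 := ((hc s).pow 2).const_mul β
    have a4 := (a1.add a2).sub a3
    refine a4.congr_deriv ?_
    have c1 := real_inner_comm (X (p + s • w) - x0) (D1 X (p + s • w) w)
    simp only [inner_zero_left, add_zero]
    rw [c1]
    push_cast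
    ring
  have h2 : HasDerivAt (fun s : ℝ => 2 * K * ⟪X (p + s • w) - x0, D1 X (p + s • w) w⟫
        + ⟪e, D1 X (p + s • w) w⟫ - 2 * β * ((p + s • w) 0 * w 0))
      (2 * K * (‖w‖ ^ 2 + ⟪X p - x0, D2 X p w w⟫) + ⟪e, D2 X p w w⟫ - 2 * β * (w 0) ^ 2) 0 := by
    have a1 := ((hX 0).inner ℝ (h.lineD1 p w w 0)).const_mul (2 * K)
    have a2 := (hasDerivAt_const (0 : ℝ) e).inner ℝ (h.lineD1 p w w 0)
    have a3 := ((hc 0).mul_const (w 0)).const_mul (2 * β)
    have a4 := (a1.add a2).sub a3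
    refine a4.congr_deriv ?_
    simp only [zero_smul, add_zero, inner_zero_left]
    rw [h.inner_D1, real_inner_self_eq_norm_sq]
    ring
  apply second_deriv_nonpos h1 h2
  have hcont : Tendsto (fun s : ℝ => p + s • w) (𝓝 0) (𝓝 p) := by
    have : Continuous (fun s : ℝ => p + s • w) := by fun_prop
    simpa using this.tendsto 0
  have := hcont.eventually hmax
  show ∀ᶠ s in 𝓝 (0 : ℝ), F X x0 e K β (p + s • w) ≤ F X x0 e K β (p + (0 : ℝ) • w)
  simpa using this

/-! ### Symmetry under the glide reflection -/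

/-- invariance under `(t,v) ↦ (-t,v+a)` -/
def Inv (X : Plane → E4) (a : ℝ) : Prop := ∀ t v : ℝ, X !₂[-t, v + a] = X !₂[t, v]

lemma Inv.period {a : ℝ} (hI : Inv X a) (t v : ℝ) : X !₂[t, v + 2 * a] = X !₂[t, v] := by
  have h1 := hI (-t) (v + a)
  rw [neg_neg, hI t v] at h1
  rw [← h1]; congr 2; ring_nf

lemma Inv.period_int {a : ℝ} (hI : Inv X a) (n : ℤ) (t v : ℝ) :
    X !₂[t, v + n * (2 * a)] = X !₂[t, v] := by
  induction n using Int.induction_on with
  | zero => simp
  | succ k ih =>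
    have := hI.period t (v + k * (2 * a))
    rw [← ih]
    push_cast at this ⊢
    rw [← this]; congr 2; ring_nf
  | pred k ih =>
    have := hI.period t (v + (-(k : ℤ) - 1 : ℤ) * (2 * a))
    rw [← ih, ← this]
    push_cast
    congr 2; ring_nf

lemma plane_eta (p : Plane) : !₂[p 0, p 1] = p := by
  ext i; fin_cases i <;> rfl

lemma norm_plane_le (t v : ℝ) : ‖(!₂[t, v] : Plane)‖ ≤ |t| + |v| := by
  rw [EuclideanSpace.norm_eq, Fin.sum_univ_two]
  simp only [Real.norm_eq_abs]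
  rw [Real.sqrt_le_left (by positivity)]
  have : 0 ≤ |t| * |v| := by positivity
  show |t| ^ 2 + |v| ^ 2 ≤ _
  nlinarith

/-- two points on the same vertical line have images at distance at most `a` -/
lemma dist_vertical (h : Iso X) {a : ℝ} (ha : 0 < a) (hI : Inv X a) (t v v' : ℝ) :
    ‖X !₂[t, v] - X !₂[t, v']‖ ≤ a := by
  -- choose the representative
  set n : ℤ := round ((v - v') / (2 * a)) with hn
  have h1 : |(v - v') / (2 * a) - n| ≤ 1 / 2 := by
    rw [hn]; exact abs_sub_round _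
  have h2 : |v - (v' + n * (2 * a))| ≤ a := by
    have h3 : v - (v' + n * (2 * a)) = ((v - v') / (2 * a) - n) * (2 * a) := by
      field_simp; ring
    rw [h3, abs_mul, abs_of_pos (by linarith : (0 : ℝ) < 2 * a)]
    nlinarith
  rw [← hI.period_int n t v']
  refine (h.lipschitz _ _).trans ?_
  have h4 : (!₂[t, v] : Plane) - !₂[t, v' + n * (2 * a)] = !₂[0, v - (v' + n * (2 * a))] := by
    ext i; fin_cases i <;> simp
  rw [h4]
  refine (norm_plane_le _ _).trans ?_
  rw [abs_zero, zero_add]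
  exact h2

/-- distance to the base point -/
lemma dist_base (h : Iso X) {a : ℝ} (ha : 0 < a) (hI : Inv X a) (p : Plane) :
    ‖X p - X !₂[0, 0]‖ ≤ |p 0| + a := by
  have h1 := dist_vertical h ha hI (p 0) (p 1) 0
  rw [plane_eta] at h1
  have h2 : ‖X !₂[p 0, 0] - X !₂[0, 0]‖ ≤ |p 0| := by
    refine (h.lipschitz _ _).trans ?_
    have h4 : (!₂[p 0, 0] : Plane) - !₂[0, 0] = !₂[p 0, 0] := by
      ext i; fin_cases i <;> simp
    rw [h4]
    refine (norm_plane_le _ _).trans ?_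
    simp
  calc ‖X p - X !₂[0, 0]‖ = ‖(X p - X !₂[p 0, 0]) + (X !₂[p 0, 0] - X !₂[0, 0])‖ := by
        congr 1; abel
    _ ≤ _ := norm_add_le _ _
    _ ≤ |p 0| + a := by linarith

/-- Maximum principle: the maximum over the strip `|t| ≤ R` exists. -/
lemma exists_max (h : Iso X) {a : ℝ} (ha : 0 < a) (hI : Inv X a) (x0 e : E4) (K β R : ℝ)
    (hR : 0 ≤ R) :
    ∃ p : Plane, |p 0| ≤ R ∧ ∀ q : Plane, |q 0| ≤ R → F X x0 e K β q ≤ F X x0 e K β p := by
  have hXc : Continuous X := h.smooth.continuous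
  have hFc : Continuous (F X x0 e K β) := by
    unfold F
    have : Continuous fun p : Plane => p 0 := by fun_prop
    fun_prop
  let Φ : ℝ × ℝ → Plane := fun q => !₂[q.1, q.2]
  have hΦ : Continuous Φ := by
    show Continuous fun q : ℝ × ℝ => (!₂[q.1, q.2] : Plane)
    fun_prop
  have hcomp : IsCompact (Icc (-R) R ×ˢ Icc (0 : ℝ) (2 * a)) := isCompact_Icc.prod isCompact_Icc
  have hne : (Icc (-R) R ×ˢ Icc (0 : ℝ) (2 * a)).Nonempty :=
    ⟨(0, 0), ⟨⟨by linarith, hR⟩, ⟨le_refl _, by linarith⟩⟩⟩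
  obtain ⟨⟨t1, v1⟩, hmem, hmax⟩ := hcomp.exists_isMaxOn hne (hFc.comp hΦ).continuousOn
  refine ⟨Φ (t1, v1), abs_le.mpr hmem.1, fun q hq => ?_⟩
  -- reduce `q` modulo the period
  set n : ℤ := ⌊q 1 / (2 * a)⌋ with hn
  have hb1 : (n : ℝ) ≤ q 1 / (2 * a) := Int.floor_le _
  have hb2 : q 1 / (2 * a) < n + 1 := Int.lt_floor_add_one _
  have h2a : (0 : ℝ) < 2 * a := by linarith
  rw [le_div_iff₀ h2a] at hb1
  rw [div_lt_iff₀ h2a] at hb2
  have hq' : (q 0, q 1 - n * (2 * a)) ∈ Icc (-R) R ×ˢ Icc (0 : ℝ) (2 * a) := by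
    refine ⟨abs_le.mp hq, ⟨?_, ?_⟩⟩
    · show 0 ≤ q 1 - n * (2 * a)
      linarith
    · show q 1 - n * (2 * a) ≤ 2 * a
      linarith
  have h1 := hmax hq'
  have h2 : F X x0 e K β (Φ (q 0, q 1 - n * (2 * a))) = F X x0 e K β q := by
    have h3 : X (Φ (q 0, q 1 - n * (2 * a))) = X q := by
      have := hI.period_int n (q 0) (q 1 - n * (2 * a))
      rw [sub_add_cancel, plane_eta] at this
      exact this.symm
    unfold F
    rw [h3]
    rfl
  rw [← h2]
  exact h1

/-- If the test function has an ascending direction (to second order) everywhere in the open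
strip, then the maximum over the closed strip is attained at `t = R`. -/
lemma max_at_boundary (h : Iso X) {a : ℝ} (ha : 0 < a) (hI : Inv X a) (x0 e : E4) (K β R : ℝ)
    (hR : 0 ≤ R)
    (hpos : ∀ p : Plane, |p 0| < R → ∃ w : Plane,
      0 < 2 * K * (‖w‖ ^ 2 + ⟪X p - x0, D2 X p w w⟫) + ⟪e, D2 X p w w⟫ - 2 * β * (w 0) ^ 2) :
    ∃ v : ℝ, ∀ q : Plane, |q 0| ≤ R → F X x0 e K β q ≤ F X x0 e K β !₂[R, v] := by
  obtain ⟨p, hp, hmax⟩ := exists_max h ha hI x0 e K β R hR
  rcases lt_or_eq_of_le hp with hlt | heq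
  · exfalso
    have hloc : IsLocalMax (F X x0 e K β) p := by
      have : ∀ᶠ q : Plane in 𝓝 p, |q 0| < R := by
        have hc : Continuous fun q : Plane => |q 0| := by fun_prop
        exact hc.continuousAt.eventually (gt_mem_nhds hlt)
      filter_upwards [this] with q hq
      exact hmax q hq.le
    obtain ⟨w, hw⟩ := hpos p hlt
    have := F_localMax h x0 e K β p hloc w
    linarith
  · rcases (abs_eq hR).mp heq with h1 | h1
    · refine ⟨p 1, fun q hq => ?_⟩
      have := hmax q hq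
      rw [← h1, plane_eta]
      exact this
    · refine ⟨p 1 + a, fun q hq => ?_⟩
      have h2 := hmax q hq
      have h3 : F X x0 e K β !₂[R, p 1 + a] = F X x0 e K β p := by
        have h4 : X !₂[R, p 1 + a] = X p := by
          have := hI (p 0) (p 1)
          rw [h1, neg_neg] at this
          rw [this, ← h1, plane_eta]
        unfold F
        rw [h4]
        have h5 : (!₂[R, p 1 + a] : Plane) 0 = R := rfl
        rw [h5, h1]
        ring
      rw [h3]
      exact h2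

end Pool.Agent.Work.MP_174134_gt
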