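import Mathlib

open scoped RealInnerProductSpace ContDiff
open Set Filter Topology

namespace Pool.Agent.Work.MP_174134_gt

abbrev Plane := EuclideanSpace ℝ (Fin 2)
abbrev E4 := EuclideanSpace ℝ (Fin 4)

/-! ### A second derivative test -/

lemma second_deriv_nonpos {g g1 : ℝ → ℝ} {g2 : ℝ} (h1 : ∀ s, HasDerivAt g (g1 s) s)
    (h2 : HasDerivAt g1 g2 0) (hmax : IsLocalMax g 0) : g2 ≤ 0 := by
  by_contra hcon
  rw [not_le] at hcon
  have hd : deriv g = g1 := funext fun s => (h1 s).deriv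
  have hdd : deriv (deriv g) 0 = g2 := by rw [hd]; exact h2.deriv
  have h0 : deriv g 0 = 0 := hmax.deriv_eq_zero
  have hmin : IsLocalMin g 0 :=
    isLocalMin_of_deriv_deriv_pos (by rw [hdd]; exact hcon) h0 (h1 0).continuousAt
  have hconst : ∀ᶠ s in 𝓝 (0 : ℝ), g s = g 0 := by
    filter_upwards [hmax, hmin] with s hs1 hs2
    exact le_antisymm hs1 hs2
  have hev : g1 =ᶠ[𝓝 0] fun _ => (0 : ℝ) := by
    filter_upwards [hconst.eventually_nhds] with s hs
    have : HasDerivAt (fun _ : ℝ => g 0) (g1 s) s := by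
      refine (h1 s).congr_of_eventuallyEq ?_
      filter_upwards [hs] with r hr
      exact hr.symm
    have h3 := this.unique (hasDerivAt_const s (g 0))
    exact h3
  have : g2 = 0 := by
    have h4 : HasDerivAt (fun _ : ℝ => (0 : ℝ)) g2 0 := h2.congr_of_eventuallyEq hev.symm
    exact h4.unique (hasDerivAt_const 0 0)
  linarith

/-! ### Isometric immersions of the plane -/

/-- `X` is three times continuously differentiable and its derivative preserves lengths. -/
structure Iso (X : Plane → E4) : Prop where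
  smooth : ContDiff ℝ 3 X
  isom : ∀ p w, ‖fderiv ℝ X p w‖ = ‖w‖

variable {X : Plane → E4}

noncomputable def D1 (X : Plane → E4) : Plane → (Plane →L[ℝ] E4) := fderiv ℝ X
noncomputable def D2 (X : Plane → E4) : Plane → (Plane →L[ℝ] (Plane →L[ℝ] E4)) := fderiv ℝ (D1 X)
noncomputable def D3 (X : Plane → E4) :
    Plane → (Plane →L[ℝ] (Plane →L[ℝ] (Plane →L[ℝ] E4))) := fderiv ℝ (D2 X)

namespace Iso

lemma contDiff_D1 (h : Iso X) : ContDiff ℝ 2 (D1 X) :=
  h.smooth.fderiv_right (by norm_num)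

lemma contDiff_D2 (h : Iso X) : ContDiff ℝ 1 (D2 X) :=
  h.contDiff_D1.fderiv_right (by norm_num)

lemma hasD1 (h : Iso X) (p : Plane) : HasFDerivAt X (D1 X p) p :=
  (h.smooth.differentiable (by norm_num) p).hasFDerivAt

lemma hasD2 (h : Iso X) (p : Plane) : HasFDerivAt (D1 X) (D2 X p) p :=
  (h.contDiff_D1.differentiable (by norm_num) p).hasFDerivAt

lemma hasD3 (h : Iso X) (p : Plane) : HasFDerivAt (D2 X) (D3 X p) p :=
  (h.contDiff_D2.differentiable (by norm_num) p).hasFDerivAt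

lemma symm2 (h : Iso X) (p u w : Plane) : D2 X p u w = D2 X p w u :=
  second_derivative_symmetric (fun y => h.hasD1 y) (h.hasD2 p) u w

lemma symm3 (h : Iso X) (p u w : Plane) : D3 X p u w = D3 X p w u :=
  second_derivative_symmetric (fun y => h.hasD2 y) (h.hasD3 p) u w

/-- derivative along a line -/
lemma line_deriv {F : Type*} [NormedAddCommGroup F] [NormedSpace ℝ F] {G : Plane → F}
    {G' : Plane → Plane →L[ℝ] F} (hG : ∀ q, HasFDerivAt G (G' q) q) (p u : Plane) (s : ℝ) :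
    HasDerivAt (fun s : ℝ => G (p + s • u)) (G' (p + s • u) u) s := by
  have h1 : HasDerivAt (fun s : ℝ => p + s • u) u s := by
    simpa using ((hasDerivAt_id s).smul_const u).const_add p
  exact (hG (p + s • u)).comp_hasDerivAt s h1

lemma lineX (h : Iso X) (p u : Plane) (s : ℝ) :
    HasDerivAt (fun s : ℝ => X (p + s • u)) (D1 X (p + s • u) u) s :=
  line_deriv h.hasD1 p u s

lemma lineD1 (h : Iso X) (p u w : Plane) (s : ℝ) :
    HasDerivAt (fun s : ℝ => D1 X (p + s • u) w) (D2 X (p + s • u) u w) s := by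
  have := line_deriv h.hasD2 p u s
  exact ((ContinuousLinearMap.apply ℝ E4 w).hasFDerivAt).comp_hasDerivAt s this

lemma lineD2 (h : Iso X) (p u v w : Plane) (s : ℝ) :
    HasDerivAt (fun s : ℝ => D2 X (p + s • u) v w) (D3 X (p + s • u) u v w) s := by
  have := line_deriv (F := Plane →L[ℝ] Plane →L[ℝ] E4) (G := D2 X) (G' := D3 X) h.hasD3 p u s
  have h2 := ((ContinuousLinearMap.apply ℝ (Plane →L[ℝ] E4) v).hasFDerivAt).comp_hasDerivAt s this
  exact ((ContinuousLinearMap.apply ℝ E4 w).hasFDerivAt).comp_hasDerivAt s h2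

lemma inner_D1 (h : Iso X) (p w w' : Plane) : ⟪D1 X p w, D1 X p w'⟫ = ⟪w, w'⟫ := by
  let L : Plane →ₗᵢ[ℝ] E4 := ⟨(fderiv ℝ X p).toLinearMap, fun w => h.isom p w⟩
  exact L.inner_map_map w w'

/-- second derivatives are normal -/
lemma normal2 (h : Iso X) (p u w w' : Plane) : ⟪D2 X p u w, D1 X p w'⟫ = 0 := by
  have key : ∀ u w w' : Plane, ⟪D1 X p w, D2 X p u w'⟫ + ⟪D2 X p u w, D1 X p w'⟫ = 0 := by
    intro u w w'
    have h1 := (h.lineD1 p u w 0).inner ℝ (h.lineD1 p u w' 0)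
    simp only [zero_smul, add_zero] at h1
    have h2 : (fun t : ℝ => ⟪D1 X (p + t • u) w, D1 X (p + t • u) w'⟫) = fun _ => ⟪w, w'⟫ :=
      funext fun t => h.inner_D1 _ _ _
    rw [h2] at h1
    exact h1.unique (hasDerivAt_const _ _)
  have k1 := key u w w'
  have k2 := key w w' u
  have k3 := key w' u w
  rw [h.symm2 p w' u, h.symm2 p w' w] at k3
  rw [h.symm2 p w u] at k2
  have c1 := real_inner_comm (D2 X p u w) (D1 X p w')
  have c2 := real_inner_comm (D2 X p u w') (D1 X p w)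
  have c4 := real_inner_comm (D2 X p w w') (D1 X p u)
  linarith

/-- Gauss equation -/
lemma gauss (h : Iso X) (p u w u' w' : Plane) :
    ⟪D2 X p u w, D2 X p u' w'⟫ = ⟪D2 X p u' w, D2 X p u w'⟫ := by
  have key : ∀ u w u' w' : Plane,
      ⟪D2 X p u w, D2 X p u' w'⟫ + ⟪D3 X p u' u w, D1 X p w'⟫ = 0 := by
    intro u w u' w'
    have h1 := (h.lineD2 p u' u w 0).inner ℝ (h.lineD1 p u' w' 0)
    simp only [zero_smul, add_zero] at h1
    have h2 : (fun t : ℝ => ⟪D2 X (p + t • u') u w, D1 X (p + t • u') w'⟫) = fun _ => 0 :=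
      funext fun t => h.normal2 _ _ _ _
    rw [h2] at h1
    exact h1.unique (hasDerivAt_const _ _)
  have k1 := key u w u' w'
  have k2 := key u' w u w'
  rw [h.symm3 p u' u] at k1
  linarith

lemma lipschitz (h : Iso X) (p q : Plane) : ‖X p - X q‖ ≤ ‖p - q‖ := by
  have := Convex.norm_image_sub_le_of_norm_fderiv_le (𝕜 := ℝ) (f := X) (C := 1) (s := Set.univ)
    (x := q) (y := p) (fun x _ => h.smooth.differentiable (by norm_num) x)
    (fun x _ => ContinuousLinearMap.opNorm_le_bound _ zero_le_one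
      (fun w => by rw [h.isom x w, one_mul])) convex_univ (mem_univ _) (mem_univ _)
  simpa using this

end Iso

/-! ### The quadratic form of the ellipsoid -/

/-- A symmetric operator `Q` with `lo ≤ Q ≤ hi`. -/
structure Quad (Q : E4 →L[ℝ] E4) (lo hi : ℝ) : Prop where
  lo_pos : 0 < lo
  hi_pos : 0 < hi
  symm : ∀ x y, ⟪Q x, y⟫ = ⟪x, Q y⟫
  lower : ∀ x, lo * ‖x‖ ^ 2 ≤ ⟪x, Q x⟫
  upper : ∀ x, ‖Q x‖ ≤ hi * ‖x‖
  sq : ∀ x, lo * ⟪x, Q x⟫ ≤ ‖Q x‖ ^ 2

variable {Q : E4 →L[ℝ] E4} {lo hi : ℝ}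

lemma Quad.nonneg (hQ : Quad Q lo hi) (x : E4) : 0 ≤ ⟪x, Q x⟫ :=
  le_trans (mul_nonneg hQ.lo_pos.le (sq_nonneg _)) (hQ.lower x)

lemma Quad.le_hi (hQ : Quad Q lo hi) (x : E4) : ⟪x, Q x⟫ ≤ hi * ‖x‖ ^ 2 := by
  have h1 := real_inner_le_norm x (Q x)
  have h2 := mul_le_mul_of_nonneg_left (hQ.upper x) (norm_nonneg x)
  nlinarith

lemma Quad.cauchy (hQ : Quad Q lo hi) (x y : E4) :
    ⟪x, Q y⟫ ^ 2 ≤ ⟪x, Q x⟫ * ⟪y, Q y⟫ := by
  have hy := hQ.nonneg y
  rcases eq_or_lt_of_le hy with h0 | hpos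
  · have : y = 0 := by
      have h1 := hQ.lower y
      rw [← h0] at h1
      have h2 : ‖y‖ ^ 2 ≤ 0 := by
        by_contra hc
        rw [not_le] at hc
        have := mul_pos hQ.lo_pos hc
        linarith
      have h3 : ‖y‖ = 0 := by nlinarith [norm_nonneg y]
      exact norm_eq_zero.mp h3
    subst this
    simp
  · have h1 := hQ.nonneg (⟪y, Q y⟫ • x - ⟪x, Q y⟫ • y)
    have h2 : ⟪y, Q x⟫ = ⟪x, Q y⟫ := by
      rw [real_inner_comm, hQ.symm]
    simp only [map_sub, map_smul, inner_sub_left, inner_sub_right, real_inner_smul_left,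
      real_inner_smul_right] at h1
    rw [h2] at h1
    have h3 : 0 ≤ ⟪y, Q y⟫ * (⟪x, Q x⟫ * ⟪y, Q y⟫ - ⟪x, Q y⟫ ^ 2) := by
      nlinarith
    have h4 := nonneg_of_mul_nonneg_right h3 hpos
    linarith

/-- `X` lies on the ellipsoid -/
def OnE (X : Plane → E4) (Q : E4 →L[ℝ] E4) : Prop := ∀ p, ⟪X p, Q (X p)⟫ = 1

namespace OnE

lemma tangent (hE : OnE X Q) (h : Iso X) (hQ : Quad Q lo hi) (p w : Plane) :
    ⟪D1 X p w, Q (X p)⟫ = 0 := by
  have h1 := (h.lineX p w 0).inner ℝ (Q.hasFDerivAt.comp_hasDerivAt 0 (h.lineX p w 0))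
  simp only [zero_smul, add_zero, Function.comp_apply] at h1
  have h2 : (fun t : ℝ => ⟪X (p + t • w), Q (X (p + t • w))⟫) = fun _ => 1 :=
    funext fun t => hE _
  rw [h2] at h1
  have h3 := h1.unique (hasDerivAt_const _ _)
  have h4 : ⟪X p, Q (D1 X p w)⟫ = ⟪D1 X p w, Q (X p)⟫ := by
    rw [← hQ.symm, real_inner_comm]
  linarith

lemma second (hE : OnE X Q) (h : Iso X) (hQ : Quad Q lo hi) (p u w : Plane) :
    ⟪D2 X p u w, Q (X p)⟫ = - ⟪D1 X p w, Q (D1 X p u)⟫ := by
  have h1 := (h.lineD1 p u w 0).inner ℝ (Q.hasFDerivAt.comp_hasDerivAt 0 (h.lineX p u 0))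
  simp only [zero_smul, add_zero, Function.comp_apply] at h1
  have h2 : (fun t : ℝ => ⟪D1 X (p + t • u) w, Q (X (p + t • u))⟫) = fun _ => 0 :=
    funext fun t => hE.tangent h hQ _ _
  rw [h2] at h1
  have h3 := h1.unique (hasDerivAt_const _ _)
  linarith

lemma normal_ne (hE : OnE X Q) (p : Plane) : Q (X p) ≠ 0 := by
  intro h0
  have := hE p
  rw [h0, inner_zero_right] at this
  exact zero_ne_one this

end OnE

/-! ### Asymptotic directions -/

/-- a two-dimensional quadratic form of nonpositive determinant has a nonzero null vector -/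
lemma exists_null {A B C : ℝ} (h : A * C ≤ B ^ 2) :
    ∃ x y : ℝ, (x ≠ 0 ∨ y ≠ 0) ∧ A * x ^ 2 + 2 * B * (x * y) + C * y ^ 2 = 0 := by
  by_cases hA : A = 0
  · exact ⟨1, 0, Or.inl one_ne_zero, by simp [hA]⟩
  · refine ⟨(-B + Real.sqrt (B ^ 2 - A * C)) / A, 1, Or.inr one_ne_zero, ?_⟩
    have hs := Real.sq_sqrt (show (0 : ℝ) ≤ B ^ 2 - A * C by linarith)
    set s := Real.sqrt (B ^ 2 - A * C)
    field_simp
    nlinarith

lemma asymptotic (h : Iso X) (hQ : Quad Q lo hi) (hE : OnE X Q) (p : Plane) :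
    ∃ w : Plane, ‖w‖ = 1 ∧ ∃ μ : ℝ, D2 X p w w = (-μ) • Q (X p) := by
  classical
  -- an orthonormal basis of the plane
  let b := EuclideanSpace.basisFun (Fin 2) ℝ
  let e0 : Plane := b 0
  let e1 : Plane := b 1
  have n0 : ‖e0‖ = 1 := b.norm_eq_one 0
  have n1 : ‖e1‖ = 1 := b.norm_eq_one 1
  have o01 : ⟪e0, e1⟫ = 0 := b.inner_eq_zero (by decide)
  have hN := hE.normal_ne p
  set N := Q (X p) with hNdef
  -- the three mutually orthogonal vectors
  let v : Fin 3 → E4 := ![D1 X p e0, D1 X p e1, N]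
  have i01 : ⟪D1 X p e0, D1 X p e1⟫ = 0 := by rw [h.inner_D1, o01]
  have i0N : ⟪D1 X p e0, N⟫ = 0 := hE.tangent h hQ _ _
  have i1N : ⟪D1 X p e1, N⟫ = 0 := hE.tangent h hQ _ _
  have z0 : D1 X p e0 ≠ 0 := by
    intro hz
    have := h.isom p e0
    rw [show fderiv ℝ X p e0 = 0 from hz, norm_zero, n0] at this
    exact zero_ne_one this
  have z1 : D1 X p e1 ≠ 0 := by
    intro hz
    have := h.isom p e1
    rw [show fderiv ℝ X p e1 = 0 from hz, norm_zero, n1] at this
    exact zero_ne_one this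
  have hlin : LinearIndependent ℝ v := by
    apply linearIndependent_of_ne_zero_of_inner_eq_zero (𝕜 := ℝ)
    · intro i
      fin_cases i
      · exact z0
      · exact z1
      · exact hN
    · intro i j hij
      fin_cases i <;> fin_cases j <;> first | exact absurd rfl hij | skip
      · exact i01
      · exact i0N
      · show ⟪D1 X p e1, D1 X p e0⟫ = 0
        rw [real_inner_comm]; exact i01
      · exact i1N
      · show ⟪N, D1 X p e0⟫ = 0
        rw [real_inner_comm]; exact i0N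
      · show ⟪N, D1 X p e1⟫ = 0
        rw [real_inner_comm]; exact i1N
  set S := Submodule.span ℝ (Set.range v) with hS
  have hfin : Module.finrank ℝ S = 3 := by
    rw [hS, finrank_span_eq_card hlin]; simp
  have hfin' : Module.finrank ℝ Sᗮ = 1 := by
    have := Submodule.finrank_add_finrank_orthogonal (𝕜 := ℝ) S
    rw [hfin] at this
    have h4 : Module.finrank ℝ E4 = 4 := by simp
    rw [h4] at this
    omega
  obtain ⟨ν, hν0, hν⟩ := finrank_eq_one_iff'.mp hfin'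
  -- membership criterion
  have hmem : ∀ x : E4, ⟪x, D1 X p e0⟫ = 0 → ⟪x, D1 X p e1⟫ = 0 → ⟪x, N⟫ = 0 → x ∈ Sᗮ := by
    intro x h0 h1 h2
    rw [Submodule.mem_orthogonal]
    intro u hu
    rw [hS] at hu
    induction hu using Submodule.span_induction with
    | mem y hy =>
      obtain ⟨i, rfl⟩ := hy
      rw [real_inner_comm]
      fin_cases i
      · exact h0
      · exact h1
      · exact h2
    | zero => simp
    | add y z _ _ hy hz => rw [inner_add_left, hy, hz, add_zero]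
    | smul c y _ hy => rw [real_inner_smul_left, hy, mul_zero]
  set n : ℝ := ‖N‖ ^ 2 with hn
  have hnpos : 0 < n := by rw [hn]; positivity
  have hNN : ⟪N, N⟫ = n := by rw [real_inner_self_eq_norm_sq]
  let P : Plane → Plane → ℝ := fun u w => ⟪D1 X p w, Q (D1 X p u)⟫
  have hPsymm : ∀ u w, P u w = P w u := by
    intro u w
    show ⟪D1 X p w, Q (D1 X p u)⟫ = ⟪D1 X p u, Q (D1 X p w)⟫
    rw [← hQ.symm, real_inner_comm]
  have hr : ∀ u w, ∃ c : ℝ, D2 X p u w = c • (ν : E4) - (P u w / n) • N := by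
    intro u w
    have hm : D2 X p u w + (P u w / n) • N ∈ Sᗮ := by
      apply hmem
      · rw [inner_add_left, h.normal2, real_inner_smul_left, real_inner_comm, i0N]; simp
      · rw [inner_add_left, h.normal2, real_inner_smul_left, real_inner_comm, i1N]; simp
      · rw [inner_add_left, real_inner_smul_left, hNN, hE.second h hQ]
        show -P u w + P u w / n * n = 0
        field_simp
        ring
    obtain ⟨c, hc⟩ := hν ⟨_, hm⟩
    refine ⟨c, ?_⟩
    have := congrArg (Subtype.val) hc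
    simp only [Submodule.coe_smul] at this
    rw [this]
    abel
  obtain ⟨A, hA⟩ := hr e0 e0
  obtain ⟨B, hB⟩ := hr e0 e1
  obtain ⟨C, hC⟩ := hr e1 e1
  have hνN : ⟪(ν : E4), N⟫ = 0 := by
    have := (Submodule.mem_orthogonal S (ν : E4)).mp ν.2 N (Submodule.subset_span ⟨2, rfl⟩)
    rw [real_inner_comm]; exact this
  have hNν : ⟪N, (ν : E4)⟫ = 0 := by rw [real_inner_comm]; exact hνN
  set m : ℝ := ⟪(ν : E4), (ν : E4)⟫ with hm
  have hmpos : 0 < m := by
    rw [hm, real_inner_self_eq_norm_sq]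
    have : (ν : E4) ≠ 0 := fun hz => hν0 (Subtype.ext hz)
    positivity
  have hG := h.gauss p e0 e0 e1 e1
  rw [h.symm2 p e1 e0] at hG
  rw [hA, hB, hC] at hG
  simp only [inner_sub_left, inner_sub_right, real_inner_smul_left, real_inner_smul_right, hνN,
    hNν, hNN, ← hm] at hG
  have hCS : P e0 e1 ^ 2 ≤ P e0 e0 * P e1 e1 := by
    have := hQ.cauchy (D1 X p e1) (D1 X p e0)
    show ⟪D1 X p e1, Q (D1 X p e0)⟫ ^ 2 ≤
      ⟪D1 X p e0, Q (D1 X p e0)⟫ * ⟪D1 X p e1, Q (D1 X p e1)⟫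
    linarith
  have hdet : A * C ≤ B ^ 2 := by
    have e1' : (A * C - B ^ 2) * m = - (P e0 e0 * P e1 e1 - P e0 e1 ^ 2) / n := by
      field_simp at hG ⊢
      nlinarith
    have e2' : - (P e0 e0 * P e1 e1 - P e0 e1 ^ 2) / n ≤ 0 := by
      apply div_nonpos_of_nonpos_of_nonneg _ hnpos.le
      linarith
    by_contra hc
    rw [not_le] at hc
    have := mul_pos (sub_pos.mpr hc) hmpos
    linarith
  obtain ⟨x, y, hxy, hnull⟩ := exists_null hdet
  set w0 : Plane := x • e0 + y • e1 with hw0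
  have hw0ne : w0 ≠ 0 := by
    intro hz
    have hx : ⟪w0, e0⟫ = x := by
      rw [hw0, inner_add_left, real_inner_smul_left, real_inner_smul_left,
        real_inner_self_eq_norm_sq, n0, real_inner_comm, o01]; ring
    have hy : ⟪w0, e1⟫ = y := by
      rw [hw0, inner_add_left, real_inner_smul_left, real_inner_smul_left,
        real_inner_self_eq_norm_sq, n1, o01]; ring
    rw [hz, inner_zero_left] at hx hy
    rcases hxy with h' | h'
    · exact h' hx.symm
    · exact h' hy.symm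
  have hw0n : 0 < ‖w0‖ := norm_pos_iff.mpr hw0ne
  have hD : D2 X p w0 w0 =
      (-((x ^ 2 * P e0 e0 + 2 * (x * y) * P e0 e1 + y ^ 2 * P e1 e1) / n)) • N := by
    have : D2 X p w0 w0 = (x ^ 2) • D2 X p e0 e0 + (2 * (x * y)) • D2 X p e0 e1
        + (y ^ 2) • D2 X p e1 e1 := by
      rw [hw0]
      simp only [map_add, map_smul, add_apply, smul_apply]
      rw [h.symm2 p e1 e0]
      module
    rw [this, hA, hB, hC]
    have hz : (A * x ^ 2 + 2 * B * (x * y) + C * y ^ 2) • (ν : E4) = 0 := by rw [hnull, zero_smul]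
    have e3 : (x ^ 2) • (A • (ν : E4) - (P e0 e0 / n) • N)
        + (2 * (x * y)) • (B • (ν : E4) - (P e0 e1 / n) • N)
        + (y ^ 2) • (C • (ν : E4) - (P e1 e1 / n) • N)
        = (A * x ^ 2 + 2 * B * (x * y) + C * y ^ 2) • (ν : E4)
          + (-((x ^ 2 * P e0 e0 + 2 * (x * y) * P e0 e1 + y ^ 2 * P e1 e1) / n)) • N := by
      module
    rw [e3, hz, zero_add]
  refine ⟨(‖w0‖⁻¹) • w0, ?_,
    ‖w0‖⁻¹ ^ 2 * ((x ^ 2 * P e0 e0 + 2 * (x * y) * P e0 e1 + y ^ 2 * P e1 e1) / n), ?_⟩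
  · rw [norm_smul, norm_inv, norm_norm, inv_mul_cancel₀ hw0n.ne']
  · simp only [map_smul, smul_apply, hD]
    module

/-- the multiplier in the asymptotic direction -/
lemma mu_bounds (h : Iso X) (hQ : Quad Q lo hi) (hE : OnE X Q) {p w : Plane} (hw : ‖w‖ = 1)
    {μ : ℝ} (hμ : D2 X p w w = (-μ) • Q (X p)) : 0 ≤ μ ∧ μ * lo ≤ hi := by
  have h1 := hE.second h hQ p w w
  rw [hμ, real_inner_smul_left, real_inner_self_eq_norm_sq] at h1
  have h2 : μ * ‖Q (X p)‖ ^ 2 = ⟪D1 X p w, Q (D1 X p w)⟫ := by linarith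
  have hN : 0 < ‖Q (X p)‖ ^ 2 := by
    have := hE.normal_ne p
    positivity
  have h3 : 0 ≤ μ * ‖Q (X p)‖ ^ 2 := by rw [h2]; exact hQ.nonneg _
  have h4 : 0 ≤ μ := nonneg_of_mul_nonneg_left h3 hN
  refine ⟨h4, ?_⟩
  have h5 := hQ.le_hi (D1 X p w)
  have h6 : ‖D1 X p w‖ = 1 := by rw [show D1 X p w = fderiv ℝ X p w from rfl, h.isom, hw]
  rw [h6] at h5
  have h7 := hQ.sq (X p)
  rw [hE p] at h7
  nlinarith [mul_le_mul_of_nonneg_left h7 h4]

end Pool.Agent.Work.MP_174134_gt
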