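import Pool.Agent.Work.MP_174134_gt.Final

open scoped RealInnerProductSpace ContDiff

namespace Pool.Agent.Work.MP_174134_gt

/-- the diagonal operator of the ellipsoid -/
noncomputable def diag (q : Fin 4 → ℝ) : E4 →L[ℝ] E4 :=
  LinearMap.toContinuousLinearMap
    { toFun := fun x => WithLp.toLp 2 (fun i => q i * x i)
      map_add' := by intro x y; ext i; simp [mul_add]
      map_smul' := by intro r x; ext i; simp; ring }

lemma diag_apply (q : Fin 4 → ℝ) (x : E4) (i : Fin 4) : diag q x i = q i * x i := rfl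

lemma inner_diag (q : Fin 4 → ℝ) (x y : E4) : ⟪x, diag q y⟫ = ∑ i, q i * (x i * y i) := by
  rw [PiLp.inner_apply]
  apply Finset.sum_congr rfl
  intro i _
  simp only [RCLike.inner_apply, conj_trivial, diag_apply]
  ring

lemma quad_diag {q : Fin 4 → ℝ} {lo hi : ℝ} (hlo : 0 < lo) (h1 : ∀ i, lo ≤ q i)
    (h2 : ∀ i, q i ≤ hi) : Quad (diag q) lo hi where
  lo_pos := hlo
  hi_pos := lt_of_lt_of_le hlo ((h1 0).trans (h2 0))
  symm x y := by
    rw [real_inner_comm, inner_diag, inner_diag]
    apply Finset.sum_congr rfl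
    intro i _
    ring
  lower x := by
    rw [inner_diag, EuclideanSpace.norm_sq_eq, Finset.mul_sum]
    apply Finset.sum_le_sum
    intro i _
    rw [Real.norm_eq_abs, sq_abs]
    nlinarith [h1 i, sq_nonneg (x i)]
  upper x := by
    have hhi : 0 < hi := lt_of_lt_of_le hlo ((h1 0).trans (h2 0))
    have : ‖diag q x‖ ^ 2 ≤ (hi * ‖x‖) ^ 2 := by
      rw [mul_pow, EuclideanSpace.norm_sq_eq, EuclideanSpace.norm_sq_eq, Finset.mul_sum]
      apply Finset.sum_le_sum
      intro i _
      rw [Real.norm_eq_abs, Real.norm_eq_abs, sq_abs, sq_abs, diag_apply, mul_pow]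
      apply mul_le_mul_of_nonneg_right _ (sq_nonneg _)
      exact pow_le_pow_left₀ (hlo.le.trans (h1 i)) (h2 i) 2
    exact le_of_sq_le_sq this (by positivity)
  sq x := by
    rw [inner_diag, EuclideanSpace.norm_sq_eq, Finset.mul_sum]
    apply Finset.sum_le_sum
    intro i _
    rw [Real.norm_eq_abs, sq_abs, diag_apply]
    have := mul_le_mul_of_nonneg_right (h1 i) (mul_nonneg (hlo.le.trans (h1 i)) (sq_nonneg (x i)))
    nlinarith

end Pool.Agent.Work.MP_174134_gt
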