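import Pool.Agent.Work.MP_174134_gt.Band

open scoped RealInnerProductSpace ContDiff
open Set Filter Topology

namespace Pool.Agent.Work.MP_174134_gt

variable {X : Plane → E4} {Q : E4 →L[ℝ] E4} {lo hi : ℝ}

lemma chord (hQ : Quad Q lo hi) {x y : E4} (hx : ⟪x, Q x⟫ = 1) (hy : ⟪y, Q y⟫ = 1) :
    ⟪y - x, Q y⟫ = (1 / 2) * ⟪y - x, Q (y - x)⟫ := by
  have h1 : ⟪y, Q x⟫ = ⟪x, Q y⟫ := by rw [real_inner_comm, hQ.symm]
  simp only [map_sub, inner_sub_left, inner_sub_right, hx, hy, h1]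
  ring

lemma numeric1 {lo hi ρ t n : ℝ} (hn : lo ≤ n) (hsmall : 16 * (hi ^ 2 * ρ ^ 2) ≤ lo)
    (h6 : t ≤ (1 / 4) * (hi * ρ ^ 2) ^ 2) : t ≤ ρ ^ 2 / 64 * n := by
  have h9 : 16 * (hi ^ 2 * ρ ^ 2) * ρ ^ 2 ≤ lo * ρ ^ 2 :=
    mul_le_mul_of_nonneg_right hsmall (sq_nonneg ρ)
  have h10 : ρ ^ 2 / 64 * lo ≤ ρ ^ 2 / 64 * n :=
    mul_le_mul_of_nonneg_left hn (by positivity)
  have h11 : (hi * ρ ^ 2) ^ 2 = hi ^ 2 * ρ ^ 2 * ρ ^ 2 := by ring
  linarith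

lemma numeric2 {E a R ρ C : ℝ} (hE : 0 ≤ E) (ha : 0 < a) (hR : 0 < R) (hρ : 0 < ρ)
    (haR : 4 * a ≤ R) (hρR : ρ ≤ 5 / 4 * R) (h1 : E ≤ ρ / 16 + a) (h2 : C ≤ ρ ^ 2 / 64)
    (h3 : (3 / 4) * R ^ 2 ≤ E ^ 2 + C) : False := by
  have he2 : E ^ 2 ≤ (ρ / 16 + a) ^ 2 := pow_le_pow_left₀ hE h1 2
  have hfin1 : ρ / 16 + a ≤ 21 / 64 * R := by linarith
  have hfin2 : (ρ / 16 + a) ^ 2 ≤ (21 / 64 * R) ^ 2 :=
    pow_le_pow_left₀ (by positivity) hfin1 2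
  have hfin3 : ρ ^ 2 ≤ (5 / 4 * R) ^ 2 := pow_le_pow_left₀ hρ.le hρR 2
  have hR2 : 0 < R ^ 2 := by positivity
  nlinarith

/-- The quantitative core: a contradiction as soon as the band is thin enough. -/
theorem core (h : Iso X) (hQ : Quad Q lo hi) (hE : OnE X Q) {a : ℝ} (ha : 0 < a) (hI : Inv X a)
    {R : ℝ} (hR : 4 * a ≤ R) (hsmall : 16 * (hi ^ 2 * (R + a) ^ 2) ≤ lo) : False := by
  have hRpos : 0 < R := by linarith
  set ρ := R + a with hρ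
  have hρpos : 0 < ρ := by linarith
  have hρR : ρ ≤ 5 / 4 * R := by rw [hρ]; linarith
  set x0 := X !₂[0, 0] with hx0
  have hx0E : ⟪x0, Q x0⟫ = 1 := hE _
  have hlo := hQ.lo_pos
  have hhi := hQ.hi_pos
  have hdist : ∀ p : Plane, |p 0| ≤ R → ‖X p - x0‖ ≤ ρ := by
    intro p hp
    have := dist_base h ha hI p
    rw [hρ]; linarith
  -- bound on the multiplier
  have hμρ : ∀ μ : ℝ, 0 ≤ μ → μ * lo ≤ hi → μ * hi * ρ ^ 2 ≤ 1 / 16 := by
    intro μ h0 h1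
    have h2 : lo * (μ * hi * ρ ^ 2) ≤ lo * (1 / 16) := by
      have h3 : (μ * lo) * (hi * ρ ^ 2) ≤ hi * (hi * ρ ^ 2) :=
        mul_le_mul_of_nonneg_right h1 (by positivity)
      nlinarith
    exact le_of_mul_le_mul_left h2 hlo
  -- estimate of the quadratic term in the asymptotic direction
  have hquad : ∀ p : Plane, |p 0| ≤ R → ∀ μ : ℝ, 0 ≤ μ → μ * lo ≤ hi →
      -(1 / 32) ≤ ⟪X p - x0, (-μ) • Q (X p)⟫ := by
    intro p hp μ h0 h1
    rw [real_inner_smul_right, chord hQ hx0E (hE p)]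
    have h2 := hQ.le_hi (X p - x0)
    have h3 : ‖X p - x0‖ ^ 2 ≤ ρ ^ 2 := pow_le_pow_left₀ (norm_nonneg _) (hdist p hp) 2
    have h4 := hμρ μ h0 h1
    have h5 : ⟪X p - x0, Q (X p - x0)⟫ ≤ hi * ρ ^ 2 :=
      h2.trans (mul_le_mul_of_nonneg_left h3 hhi.le)
    have h6 : μ * ⟪X p - x0, Q (X p - x0)⟫ ≤ μ * (hi * ρ ^ 2) :=
      mul_le_mul_of_nonneg_left h5 h0
    nlinarith
  have hw0 : ∀ w : Plane, ‖w‖ = 1 → (w 0) ^ 2 ≤ 1 := by
    intro w hw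
    have h1 : ‖w‖ ^ 2 = 1 := by rw [hw]; norm_num
    rw [EuclideanSpace.norm_sq_eq, Fin.sum_univ_two] at h1
    simp only [Real.norm_eq_abs, sq_abs] at h1
    nlinarith [sq_nonneg (w 1)]
  -- first test function: half the squared distance
  obtain ⟨v1, hv1⟩ := max_at_boundary h ha hI x0 0 (1 / 2) (3 / 8) R hRpos.le (by
    intro p hp
    obtain ⟨w, hw, μ, hμ⟩ := asymptotic h hQ hE p
    obtain ⟨hμ0, hμ1⟩ := mu_bounds h hQ hE hw hμ
    refine ⟨w, ?_⟩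
    have h1 := hquad p hp.le μ hμ0 hμ1
    have h2 := hw0 w hw
    rw [hμ, hw, inner_zero_left]
    nlinarith)
  set y := X !₂[R, v1] with hy
  have hyE : ⟪y, Q y⟫ = 1 := hE _
  have hRabs : |(!₂[R, v1] : Plane) 0| ≤ R := by
    show |R| ≤ R
    rw [abs_of_pos hRpos]
  have hylow : (3 / 4) * R ^ 2 ≤ ‖y - x0‖ ^ 2 := by
    have h1 := hv1 !₂[0, 0] (by show |(0 : ℝ)| ≤ R; rw [abs_zero]; exact hRpos.le)
    unfold F at h1
    rw [← hx0, ← hy, sub_self, inner_zero_left, inner_zero_left,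
      real_inner_self_eq_norm_sq] at h1
    have h2 : (!₂[0, 0] : Plane) 0 = 0 := rfl
    have h3 : (!₂[R, v1] : Plane) 0 = R := rfl
    rw [h2, h3] at h1
    nlinarith
  have hyρ : ‖y - x0‖ ≤ ρ := hdist _ hRabs
  -- second test function: a tangential direction
  have htang : ∀ e : E4, ⟪e, Q x0⟫ = 0 → -(‖e‖ * (ρ / 16 + a)) ≤ ⟪e, y - x0⟫ := by
    intro e he
    rcases eq_or_ne e 0 with rfl | hne
    · simp
    have hepos : 0 < ‖e‖ := norm_pos_iff.mpr hne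
    set K := ‖e‖ / (16 * ρ) with hK
    have hKpos : 0 < K := by rw [hK]; positivity
    obtain ⟨v2, hv2⟩ := max_at_boundary h ha hI x0 e K 0 R hRpos.le (by
      intro p hp
      obtain ⟨w, hw, μ, hμ⟩ := asymptotic h hQ hE p
      obtain ⟨hμ0, hμ1⟩ := mu_bounds h hQ hE hw hμ
      refine ⟨w, ?_⟩
      have h1 := hquad p hp.le μ hμ0 hμ1
      have h2 : -K ≤ ⟪e, D2 X p w w⟫ := by
        rw [hμ, real_inner_smul_right]
        have h3 : ⟪e, Q (X p)⟫ = ⟪e, Q (X p - x0)⟫ := by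
          rw [map_sub, inner_sub_right, he, sub_zero]
        have h4 : ⟪e, Q (X p - x0)⟫ ≤ ‖e‖ * (hi * ρ) := by
          refine (real_inner_le_norm _ _).trans ?_
          refine mul_le_mul_of_nonneg_left ?_ hepos.le
          exact (hQ.upper _).trans (mul_le_mul_of_nonneg_left (hdist p hp.le) hhi.le)
        have h5 := hμρ μ hμ0 hμ1
        have h6 : μ * ⟪e, Q (X p)⟫ ≤ K := by
          rw [h3, hK, le_div_iff₀ (by positivity)]
          have h7 : μ * ⟪e, Q (X p - x0)⟫ ≤ μ * (‖e‖ * (hi * ρ)) :=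
            mul_le_mul_of_nonneg_left h4 hμ0
          have h8 : μ * ⟪e, Q (X p - x0)⟫ * (16 * ρ) ≤ μ * (‖e‖ * (hi * ρ)) * (16 * ρ) :=
            mul_le_mul_of_nonneg_right h7 (by positivity)
          have h9 : μ * (‖e‖ * (hi * ρ)) * (16 * ρ) = 16 * ‖e‖ * (μ * hi * ρ ^ 2) := by ring
          have h10 : 16 * ‖e‖ * (μ * hi * ρ ^ 2) ≤ 16 * ‖e‖ * (1 / 16) :=
            mul_le_mul_of_nonneg_left h5 (by positivity)
          linarith
        linarith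
      rw [hw]
      rw [hμ] at h2 ⊢
      nlinarith)
    have h1 := hv2 !₂[0, 0] (by show |(0 : ℝ)| ≤ R; rw [abs_zero]; exact hRpos.le)
    unfold F at h1
    rw [← hx0, sub_self, inner_zero_left, inner_zero_right, real_inner_self_eq_norm_sq] at h1
    have hR2 : |(!₂[R, v2] : Plane) 0| ≤ R := by
      show |R| ≤ R
      rw [abs_of_pos hRpos]
    have h2 : ‖X !₂[R, v2] - x0‖ ^ 2 ≤ ρ ^ 2 :=
      pow_le_pow_left₀ (norm_nonneg _) (hdist _ hR2) 2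
    have h3 : K * ‖X !₂[R, v2] - x0‖ ^ 2 ≤ ‖e‖ * ρ / 16 := by
      have h4 : K * ‖X !₂[R, v2] - x0‖ ^ 2 ≤ K * ρ ^ 2 :=
        mul_le_mul_of_nonneg_left h2 hKpos.le
      have h5 : K * ρ ^ 2 = ‖e‖ * ρ / 16 := by
        rw [hK]; field_simp
      linarith
    have h4 : -(‖e‖ * ρ / 16) ≤ ⟪e, X !₂[R, v2] - x0⟫ := by
      simp only [mul_zero, zero_mul, sub_zero, add_zero] at h1
      linarith
    have h5 : ⟪e, y - x0⟫ = ⟪e, X !₂[R, v2] - x0⟫ + ⟪e, y - X !₂[R, v2]⟫ := by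
      rw [← inner_add_right]; congr 1; abel
    have h6 : |⟪e, y - X !₂[R, v2]⟫| ≤ ‖e‖ * a :=
      (abs_real_inner_le_norm _ _).trans
        (mul_le_mul_of_nonneg_left (dist_vertical h ha hI R v1 v2) hepos.le)
    have h7 := (abs_le.mp h6).1
    rw [h5]
    linarith
  -- decompose the displacement
  set d := y - x0 with hd
  set N := Q x0 with hN
  have hNne : N ≠ 0 := by
    intro hz
    rw [hz, inner_zero_right] at hx0E
    exact zero_ne_one hx0E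
  have hNsq : lo ≤ ‖N‖ ^ 2 := by
    have := hQ.sq x0
    rw [hx0E] at this
    linarith
  have hNpos : 0 < ‖N‖ ^ 2 := lt_of_lt_of_le hlo hNsq
  set c := ⟪d, N⟫ / ‖N‖ ^ 2 with hc
  set e := -(d - c • N) with he
  have heN : ⟪e, N⟫ = 0 := by
    rw [he, inner_neg_left, inner_sub_left, real_inner_smul_left, real_inner_self_eq_norm_sq, hc]
    field_simp
    ring
  have hde : d = c • N - e := by rw [he]; abel
  have hed : ⟪e, d⟫ = -‖e‖ ^ 2 := by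
    rw [hde, inner_sub_right, real_inner_smul_right, heN, real_inner_self_eq_norm_sq]
    ring
  have hNe : ⟪N, e⟫ = 0 := by rw [real_inner_comm]; exact heN
  have hnorm : ‖d‖ ^ 2 = ‖e‖ ^ 2 + c ^ 2 * ‖N‖ ^ 2 := by
    rw [← real_inner_self_eq_norm_sq d, hde]
    simp only [inner_sub_left, inner_sub_right, real_inner_smul_left, real_inner_smul_right,
      heN, hNe, real_inner_self_eq_norm_sq]
    rw [norm_smul, mul_pow, Real.norm_eq_abs, sq_abs]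
    ring
  have he1 : ‖e‖ ≤ ρ / 16 + a := by
    have h1 := htang e heN
    rw [hed] at h1
    by_contra hcon
    rw [not_le] at hcon
    have h2 : 0 < ‖e‖ := by
      have : 0 < ρ / 16 + a := by positivity
      linarith
    nlinarith
  have hc1 : c ^ 2 * ‖N‖ ^ 2 ≤ ρ ^ 2 / 64 := by
    have h1 : ⟪d, N⟫ = -((1 / 2) * ⟪d, Q d⟫) := by
      have h2 := chord hQ hyE hx0E
      have h3 : x0 - y = -d := by rw [hd]; abel
      rw [h3, map_neg, inner_neg_left, inner_neg_left, inner_neg_right, neg_neg] at h2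
      linarith
    have h4 : 0 ≤ ⟪d, Q d⟫ := hQ.nonneg d
    have h5 : ⟪d, Q d⟫ ≤ hi * ρ ^ 2 :=
      (hQ.le_hi d).trans
        (mul_le_mul_of_nonneg_left (pow_le_pow_left₀ (norm_nonneg _) hyρ 2) hhi.le)
    have h6 : ⟪d, N⟫ ^ 2 ≤ (1 / 4) * (hi * ρ ^ 2) ^ 2 := by
      rw [h1]
      have := pow_le_pow_left₀ h4 h5 2
      nlinarith
    have h7 : c ^ 2 * ‖N‖ ^ 2 = ⟪d, N⟫ ^ 2 / ‖N‖ ^ 2 := by
      rw [hc]; field_simp
    rw [h7, div_le_iff₀ hNpos]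
    exact numeric1 hNsq hsmall h6
  exact numeric2 (norm_nonneg e) ha hRpos hρpos hR hρR he1 hc1 (hnorm ▸ hylow)

end Pool.Agent.Work.MP_174134_gt
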